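import Pool.Agent.D0H8.AC.Tor

set_option autoImplicit false

/-! Project AC, module LUMP. -/

namespace Pool.Agent.D0H8.AC

open Matrix Finset Pool.Agent.Q181.TG Pool.Agent.Helper993.FK Pool.Agent.D0H83.AC

variable {G : Type} [Group G] {r s : ℕ}

theorem reg_adj (A : Matrix (Fin r) (Fin s) (MonoidAlgebra ℤ G)) (X : Type) [MulAction G X] :
    reg X (adjZ A) = (reg X A)ᵀ := by
  classical
  ext p q
  rw [Matrix.transpose_apply]
  unfold reg
  change (Finsupp.mapDomain (fun g : G => g⁻¹) (A q.2 p.2).coeff).sum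
    (fun h x => if h • q.1 = p.1 then x else 0) = _
  rw [Finsupp.sum_mapDomain_index]
  · refine Finset.sum_congr rfl fun h _ => ?_
    simp only
    by_cases hh : h • p.1 = q.1
    · rw [if_pos hh, if_pos]
      rw [← hh, inv_smul_smul]
    · rw [if_neg hh, if_neg]
      intro h'
      apply hh
      rw [← h', smul_inv_smul]
  · intro h
    simp
  · intro h a b
    split_ifs <;> simp

theorem ob_eq_iff (Λ : Subgroup G) (X : Type) [MulAction G X] (x y : X) :
    ob Λ X x = ob Λ X y ↔ ∃ l ∈ Λ, l • y = x := by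
  unfold ob
  rw [Quotient.eq]
  change x ∈ MulAction.orbit Λ y ↔ _
  rw [MulAction.mem_orbit_iff]
  constructor
  · rintro ⟨l, hl⟩
    exact ⟨l.1, l.2, hl⟩
  · rintro ⟨l, hl, h⟩
    exact ⟨⟨l, hl⟩, h⟩

theorem ob_smul (Λ : Subgroup G) [hΛ : Λ.Normal] (X : Type) [MulAction G X] (h : G) (x y : X)
    (hxy : ob Λ X x = ob Λ X y) : ob Λ X (h • x) = ob Λ X (h • y) := by
  rw [ob_eq_iff] at hxy ⊢
  obtain ⟨l, hl, rfl⟩ := hxy
  refine ⟨h * l * h⁻¹, hΛ.conj_mem l hl h, ?_⟩
  rw [smul_smul, smul_smul]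
  congr 1
  group

open Classical in
theorem sum_row (o : Type) (A : Matrix (Fin r) (Fin s) (MonoidAlgebra ℤ G)) (X : Type) [Fintype X]
    [MulAction G X] (f : X → o) (b : o) (x : X) (i : Fin r) (j : Fin s) :
    ∑ y with f y = b, reg X A (x, i) (y, j) =
      (A i j).coeff.sum fun h c => if f (h⁻¹ • x) = b then c else 0 := by
  unfold reg
  simp only [Finsupp.sum]
  rw [Finset.sum_comm]
  refine Finset.sum_congr rfl fun h _ => ?_
  have h1 : ∀ y, (if h • y = x then (A i j).coeff h else 0) =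
      if h⁻¹ • x = y then (A i j).coeff h else 0 := by
    intro y
    have : h • y = x ↔ h⁻¹ • x = y := by
      constructor
      · rintro rfl
        exact inv_smul_smul _ _
      · rintro rfl
        exact smul_inv_smul _ _
    simp only [this]
  simp only [h1]
  rw [Finset.sum_ite_eq]
  simp

open Classical in
theorem sum_col (o : Type) (A : Matrix (Fin r) (Fin s) (MonoidAlgebra ℤ G)) (X : Type) [Fintype X]
    [MulAction G X] (f : X → o) (b : o) (y : X) (i : Fin r) (j : Fin s) :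
    ∑ x with f x = b, reg X A (x, i) (y, j) =
      (A i j).coeff.sum fun h c => if f (h • y) = b then c else 0 := by
  unfold reg
  simp only [Finsupp.sum]
  rw [Finset.sum_comm]
  refine Finset.sum_congr rfl fun h _ => ?_
  rw [Finset.sum_ite_eq]
  simp

theorem lump_reg (Λ : Subgroup G) [Λ.Normal] (A : Matrix (Fin r) (Fin r) (MonoidAlgebra ℤ G))
    (X : Type) [Fintype X] [MulAction G X] : Lump (ob Λ X) (reg X A) := by
  classical
  constructor
  · intro x x' i b j hxx'
    rw [sum_row, sum_row]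
    refine Finset.sum_congr rfl fun h _ => ?_
    simp only [ob_smul Λ X h⁻¹ x x' hxx']
    split_ifs <;> rfl
  · intro y y' j b i hyy'
    rw [sum_col, sum_col]
    refine Finset.sum_congr rfl fun h _ => ?_
    simp only [ob_smul Λ X h y y' hyy']
    split_ifs <;> rfl

theorem zs_inv {X Y : Type} [Fintype X] [Fintype Y] (o : X → Y) (ρ : Y → X) (hρ : ∀ b, o (ρ b) = b)
    (M : Matrix (X × Fin r) (X × Fin r) ℤ) (hL : Lump o M) (R : Type) [CommRing R]
    (f : X × Fin r → R) (hf : f ∈ Zs o r R) : f ᵥ* M.map (Int.cast : ℤ → R) ∈ Zs o r R := by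
  classical
  intro b j
  have h1 : ∀ x i, ∑ y with o y = b, M (x, i) (y, j) = ∑ y with o y = b, M (ρ (o x), i) (y, j) :=
    fun x i => hL.1 x (ρ (o x)) i b j (hρ _).symm
  calc ∑ y with o y = b, (f ᵥ* M.map (Int.cast : ℤ → R)) (y, j)
      = ∑ y with o y = b, ∑ p : X × Fin r, f p * (M p (y, j) : R) := rfl
    _ = ∑ p : X × Fin r, f p * ((∑ y with o y = b, M p (y, j) : ℤ) : R) := by
        rw [Finset.sum_comm]
        refine Finset.sum_congr rfl fun p _ => ?_
        rw [Int.cast_sum, Finset.mul_sum]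
    _ = ∑ p : X × Fin r, f p * ((fun b' i => ((∑ y with o y = b, M (ρ b', i) (y, j) : ℤ) : R))
          (o p.1) p.2) := by
        refine Finset.sum_congr rfl fun p _ => ?_
        simp only
        rw [← h1]
    _ = 0 := sum_root o R f hf
        (fun b' i => ((∑ y with o y = b, M (ρ b', i) (y, j) : ℤ) : R))

/-- the total mass of the entries -/
noncomputable def mass (A : Matrix (Fin r) (Fin s) (MonoidAlgebra ℤ G)) : ℕ :=
  ∑ i, ∑ j, (A i j).coeff.sum fun _ c => c.natAbs

theorem row_le (A : Matrix (Fin r) (Fin s) (MonoidAlgebra ℤ G)) (X : Type) [Fintype X]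
    [MulAction G X] (p : X × Fin r) : ∑ q, (reg X A p q).natAbs ≤ mass A := by
  classical
  obtain ⟨x, i⟩ := p
  rw [Fintype.sum_prod_type, Finset.sum_comm]
  have h1 : ∀ j, ∑ y, (reg X A (x, i) (y, j)).natAbs ≤ (A i j).coeff.sum fun _ c => c.natAbs := by
    intro j
    calc ∑ y, (reg X A (x, i) (y, j)).natAbs
        ≤ ∑ y, ∑ h ∈ (A i j).coeff.support, (if h • y = x then (A i j).coeff h else 0).natAbs :=
          Finset.sum_le_sum fun y _ => Int.natAbs_sum_le _ _
      _ = ∑ h ∈ (A i j).coeff.support, ∑ y, (if h • y = x then (A i j).coeff h else 0).natAbs :=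
          Finset.sum_comm
      _ ≤ ∑ h ∈ (A i j).coeff.support, ((A i j).coeff h).natAbs := by
          refine Finset.sum_le_sum fun h _ => ?_
          rw [Finset.sum_eq_single (h⁻¹ • x)]
          · split_ifs <;> simp
          · intro y _ hy
            rw [if_neg]
            · rfl
            · rintro rfl
              exact hy (inv_smul_smul _ _).symm
          · intro h'
            exact absurd (Finset.mem_univ _) h'
  calc ∑ j, ∑ y, (reg X A (x, i) (y, j)).natAbs
      ≤ ∑ j, (A i j).coeff.sum fun _ c => c.natAbs := Finset.sum_le_sum fun j _ => h1 j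
    _ ≤ mass A := Finset.single_le_sum
        (f := fun i => ∑ j, (A i j).coeff.sum fun _ c => c.natAbs) (fun _ _ => Nat.zero_le _)
        (Finset.mem_univ i)

theorem col_le (A : Matrix (Fin r) (Fin s) (MonoidAlgebra ℤ G)) (X : Type) [Fintype X]
    [MulAction G X] (q : X × Fin s) : ∑ p, (reg X A p q).natAbs ≤ mass A := by
  classical
  obtain ⟨y, j⟩ := q
  rw [Fintype.sum_prod_type, Finset.sum_comm]
  have h1 : ∀ i, ∑ x, (reg X A (x, i) (y, j)).natAbs ≤ (A i j).coeff.sum fun _ c => c.natAbs := by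
    intro i
    calc ∑ x, (reg X A (x, i) (y, j)).natAbs
        ≤ ∑ x, ∑ h ∈ (A i j).coeff.support, (if h • y = x then (A i j).coeff h else 0).natAbs :=
          Finset.sum_le_sum fun x _ => Int.natAbs_sum_le _ _
      _ = ∑ h ∈ (A i j).coeff.support, ∑ x, (if h • y = x then (A i j).coeff h else 0).natAbs :=
          Finset.sum_comm
      _ ≤ ∑ h ∈ (A i j).coeff.support, ((A i j).coeff h).natAbs := by
          refine Finset.sum_le_sum fun h _ => ?_
          rw [Finset.sum_eq_single (h • y)]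
          · split_ifs <;> simp
          · intro x _ hx
            rw [if_neg (fun h' => hx h'.symm)]
            rfl
          · intro h'
            exact absurd (Finset.mem_univ _) h'
  calc ∑ i, ∑ x, (reg X A (x, i) (y, j)).natAbs
      ≤ ∑ i, (A i j).coeff.sum fun _ c => c.natAbs := Finset.sum_le_sum fun i _ => h1 i
    _ ≤ mass A := by
      unfold mass
      refine Finset.sum_le_sum fun i _ => ?_
      exact Finset.single_le_sum
        (f := fun j => (A i j).coeff.sum fun _ c => c.natAbs) (fun _ _ => Nat.zero_le _)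
        (Finset.mem_univ j)

theorem schur {P Q : Type} [Fintype P] [Fintype Q] (M : Matrix P Q ℤ) (K : ℕ)
    (h1 : ∀ p, ∑ q, (M p q).natAbs ≤ K) (h2 : ∀ q, ∑ p, (M p q).natAbs ≤ K) (f : P → ℝ) :
    ∑ q, (f ᵥ* M.map (Int.cast : ℤ → ℝ)) q ^ 2 ≤ (K : ℝ) ^ 2 * ∑ p, f p ^ 2 := by
  have ha : ∀ p q, |((M p q : ℤ) : ℝ)| = ((M p q).natAbs : ℝ) := by
    intro p q
    rw [← Int.cast_abs, Int.abs_eq_natAbs]
    rfl
  have h1' : ∀ p, ∑ q, |((M p q : ℤ) : ℝ)| ≤ K := by
    intro p
    simp only [ha]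
    exact_mod_cast h1 p
  have h2' : ∀ q, ∑ p, |((M p q : ℤ) : ℝ)| ≤ K := by
    intro q
    simp only [ha]
    exact_mod_cast h2 q
  have h3 : ∀ q, (f ᵥ* M.map (Int.cast : ℤ → ℝ)) q ^ 2 ≤ K * ∑ p, |((M p q : ℤ) : ℝ)| * f p ^ 2 := by
    intro q
    have h4 : (f ᵥ* M.map (Int.cast : ℤ → ℝ)) q ^ 2 ≤
        (∑ p, |((M p q : ℤ) : ℝ)|) * ∑ p, |((M p q : ℤ) : ℝ)| * f p ^ 2 := by
      have h5 := Finset.sum_mul_sq_le_sq_mul_sq Finset.univ
        (fun p => Real.sqrt |((M p q : ℤ) : ℝ)|) (fun p => Real.sqrt |((M p q : ℤ) : ℝ)| * |f p|)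
      have h6 : ∀ p, Real.sqrt |((M p q : ℤ) : ℝ)| * (Real.sqrt |((M p q : ℤ) : ℝ)| * |f p|) =
          |f p * ((M p q : ℤ) : ℝ)| := by
        intro p
        rw [← mul_assoc, Real.mul_self_sqrt (abs_nonneg _), abs_mul, mul_comm]
      have h7 : ∀ p, Real.sqrt |((M p q : ℤ) : ℝ)| ^ 2 = |((M p q : ℤ) : ℝ)| :=
        fun p => Real.sq_sqrt (abs_nonneg _)
      have h8 : ∀ p, (Real.sqrt |((M p q : ℤ) : ℝ)| * |f p|) ^ 2 = |((M p q : ℤ) : ℝ)| * f p ^ 2 := by
        intro p
        rw [mul_pow, h7, sq_abs]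
      simp only [h6, h7, h8] at h5
      refine le_trans ?_ h5
      have h9 : |(f ᵥ* M.map (Int.cast : ℤ → ℝ)) q| ≤ ∑ p, |f p * ((M p q : ℤ) : ℝ)| :=
        Finset.abs_sum_le_sum_abs _ _
      calc (f ᵥ* M.map (Int.cast : ℤ → ℝ)) q ^ 2 = |(f ᵥ* M.map (Int.cast : ℤ → ℝ)) q| ^ 2 :=
            (sq_abs _).symm
        _ ≤ _ := pow_le_pow_left₀ (abs_nonneg _) h9 2
    refine h4.trans (mul_le_mul_of_nonneg_right (h2' q) ?_)
    exact Finset.sum_nonneg fun p _ => mul_nonneg (abs_nonneg _) (sq_nonneg _)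
  calc ∑ q, (f ᵥ* M.map (Int.cast : ℤ → ℝ)) q ^ 2
      ≤ ∑ q, K * ∑ p, |((M p q : ℤ) : ℝ)| * f p ^ 2 := Finset.sum_le_sum fun q _ => h3 q
    _ = K * ∑ p, (∑ q, |((M p q : ℤ) : ℝ)|) * f p ^ 2 := by
        rw [← Finset.mul_sum, Finset.sum_comm]
        congr 1
        refine Finset.sum_congr rfl fun p _ => ?_
        rw [Finset.sum_mul]
    _ ≤ K * ∑ p, K * f p ^ 2 := by
        refine mul_le_mul_of_nonneg_left ?_ (Nat.cast_nonneg _)
        exact Finset.sum_le_sum fun p _ => mul_le_mul_of_nonneg_right (h1' p) (sq_nonneg _)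
    _ = (K : ℝ) ^ 2 * ∑ p, f p ^ 2 := by
        rw [← Finset.mul_sum]
        ring

theorem t_lump : S_lump := by
  classical
  refine ⟨fun G _ r s A X _ _ => reg_adj A X, ?_, ?_, ?_⟩
  · intro G _ Λ _ r A X _ _
    refine ⟨lump_reg Λ A X, ?_⟩
    intro f hf
    have : Fintype (MulAction.orbitRel.Quotient Λ X) := Fintype.ofFinite _
    exact zs_inv (ob Λ X) Quotient.out (fun b => Quotient.out_eq b) (reg X A) (lump_reg Λ A X) ℝ f hf
  · intro G _ r s A
    refine ⟨mass A + 1, by omega, ?_⟩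
    intro X _ _
    have h1 : ∀ p, ∑ q, (reg X A p q).natAbs ≤ mass A + 1 := fun p => (row_le A X p).trans (by omega)
    refine ⟨h1, ?_⟩
    intro f
    exact schur (reg X A) (mass A + 1) h1 (fun q => (col_le A X q).trans (by omega)) f
  · intro X Y _ _ o r
    have h1 := LinearMap.finrank_range_add_finrank_ker (sm o r ℝ)
    rw [← Zs_eq_ker, Module.finrank_fintype_fun_eq_card, Fintype.card_prod, Fintype.card_fin] at h1
    have h2 := Submodule.finrank_le (LinearMap.range (sm o r ℝ))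
    rw [Module.finrank_fintype_fun_eq_card, Fintype.card_prod, Fintype.card_fin] at h2
    rw [← h1, mul_comm r]
    omega

end Pool.Agent.D0H8.AC
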