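import Pool.Agent.D0H83.AC.Stm

set_option autoImplicit false

/-! Project AC, module TOR: the abstract part. -/

namespace Pool.Agent.D0H8.AC

open Pool.Agent.Q181.TG Pool.Agent.Helper993.Tors

section abstract

variable {A B : Type} [AddCommGroup A] [AddCommGroup B]

theorem tc_eq_tO (L : Submodule ℤ A) : tc (A ⧸ L) = tO ⊤ L := by
  rw [tO_eq]
  let φ : sat ⊤ L →+ A ⧸ L := (L.mkQ.toAddMonoidHom).comp (sat ⊤ L).subtype
  have hk : φ.ker = L.toAddSubgroup.addSubgroupOf (sat ⊤ L) := by
    ext x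
    rw [AddMonoidHom.mem_ker, AddSubgroup.mem_addSubgroupOf]
    exact Submodule.Quotient.mk_eq_zero L
  unfold AddSubgroup.relIndex
  rw [← hk, AddSubgroup.index_ker]
  unfold tc
  have h : (φ.range : Set (A ⧸ L)) = (AddCommGroup.torsion (A ⧸ L) : Set (A ⧸ L)) := by
    ext x
    constructor
    · rintro ⟨⟨m, -, n, hn, hnm⟩, rfl⟩
      change IsOfFinAddOrder (Submodule.Quotient.mk m : A ⧸ L)
      rw [isOfFinAddOrder_iff_zsmul_eq_zero]
      refine ⟨n, hn, ?_⟩
      exact (Submodule.Quotient.mk_eq_zero L).mpr hnm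
    · intro hx
      obtain ⟨m, rfl⟩ := Submodule.Quotient.mk_surjective _ x
      have hx' : IsOfFinAddOrder (Submodule.Quotient.mk m : A ⧸ L) := hx
      rw [isOfFinAddOrder_iff_zsmul_eq_zero] at hx'
      obtain ⟨n, hn, hnm⟩ := hx'
      exact ⟨⟨m, trivial, n, hn, (Submodule.Quotient.mk_eq_zero L).mp hnm⟩, rfl⟩
  exact Nat.card_congr (Equiv.setCongr h.symm)

theorem finite_torsion [Module.Finite ℤ A] (L : Submodule ℤ A) :
    Finite (AddCommGroup.torsion (A ⧸ L)) := by
  apply Nat.finite_of_card_ne_zero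
  change tc (A ⧸ L) ≠ 0
  rw [tc_eq_tO]
  exact tO_ne_zero _ _

/-- the upper bound -/
theorem upper [Module.Finite ℤ A] [Module.Finite ℤ B] (F : A →ₗ[ℤ] A) (F' : B →ₗ[ℤ] B)
    (s : A →ₗ[ℤ] B) (hs : Function.Surjective s) (hc : ∀ a, s (F a) = F' (s a))
    (U : Submodule ℤ A) (hU : U = LinearMap.ker s) (hFU : ∀ u ∈ U, F u ∈ U)
    (hfin : Finite (U ⧸ LinearMap.range (F.restrict hFU))) :
    tc (A ⧸ LinearMap.range F) ≤
      Nat.card (U ⧸ LinearMap.range (F.restrict hFU)) * tc (B ⧸ LinearMap.range F') := by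
  have hle : LinearMap.range F ≤ (LinearMap.range F').comap s := by
    rintro _ ⟨a, rfl⟩
    exact ⟨s a, (hc a).symm⟩
  let g : (A ⧸ LinearMap.range F) →ₗ[ℤ] (B ⧸ LinearMap.range F') := Submodule.mapQ _ _ s hle
  have hT1 : Finite (AddCommGroup.torsion (A ⧸ LinearMap.range F)) := finite_torsion _
  have hT2 : Finite (AddCommGroup.torsion (B ⧸ LinearMap.range F')) := finite_torsion _
  let gT : AddCommGroup.torsion (A ⧸ LinearMap.range F) →+
      AddCommGroup.torsion (B ⧸ LinearMap.range F') :=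
    { toFun := fun x => ⟨g x.1, g.toAddMonoidHom.isOfFinAddOrder x.2⟩
      map_zero' := Subtype.ext (map_zero g)
      map_add' := fun x y => Subtype.ext (map_add g x.1 y.1) }
  have h1 : Nat.card gT.ker * gT.ker.index = tc (A ⧸ LinearMap.range F) :=
    AddSubgroup.card_mul_index gT.ker
  rw [← h1, AddSubgroup.index_ker]
  apply Nat.mul_le_mul
  · -- the kernel
    have hch : ∀ t : gT.ker, ∃ u : U,
        (Submodule.Quotient.mk (u : A) : A ⧸ LinearMap.range F) = t.1.1 := by
      intro t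
      obtain ⟨a, ha⟩ := Submodule.Quotient.mk_surjective _ t.1.1
      have h2 : g t.1.1 = 0 := congrArg Subtype.val t.2
      rw [← ha] at h2
      have h3 : (Submodule.Quotient.mk (s a) : B ⧸ LinearMap.range F') = 0 := h2
      rw [Submodule.Quotient.mk_eq_zero] at h3
      obtain ⟨b, hb⟩ := h3
      obtain ⟨a', rfl⟩ := hs b
      rw [← hc] at hb
      refine ⟨⟨a - F a', ?_⟩, ?_⟩
      · rw [hU, LinearMap.mem_ker, map_sub, hb, sub_self]
      · rw [← ha, Submodule.Quotient.eq]
        exact ⟨-a', by simp⟩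
    choose u hu using hch
    refine Nat.card_le_card_of_injective
      (fun t => (Submodule.Quotient.mk (u t) : U ⧸ LinearMap.range (F.restrict hFU))) ?_
    intro t t' htt'
    simp only at htt'
    rw [Submodule.Quotient.eq] at htt'
    obtain ⟨w, hw⟩ := htt'
    apply Subtype.ext
    apply Subtype.ext
    rw [← hu t, ← hu t', Submodule.Quotient.eq]
    refine ⟨w, ?_⟩
    have := congrArg Subtype.val hw
    exact this
  · exact Nat.card_le_card_of_injective _ Subtype.val_injective

/-- the lower bound -/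
theorem lower [Module.Finite ℤ A] (F : A →ₗ[ℤ] A) (F' : B →ₗ[ℤ] B)
    (s : A →ₗ[ℤ] B) (hc : ∀ a, s (F a) = F' (s a))
    (U : Submodule ℤ A) (hU : U = LinearMap.ker s) (hFU : ∀ u ∈ U, F u ∈ U)
    (hfin : Finite (U ⧸ LinearMap.range (F.restrict hFU))) {Q : Type} [Finite Q] (χ : B → Q)
    (hχ : ∀ b b', χ b = χ b' → F' b = 0 → F' b' = 0 → ∃ v, F v = 0 ∧ s v = b - b') :
    Nat.card (U ⧸ LinearMap.range (F.restrict hFU)) ≤
      tc (A ⧸ LinearMap.range F) * Nat.card Q := by
  have hT1 : Finite (AddCommGroup.torsion (A ⧸ LinearMap.range F)) := finite_torsion _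
  have hle : LinearMap.range (F.restrict hFU) ≤ (LinearMap.range F).comap U.subtype := by
    rintro _ ⟨a, rfl⟩
    exact ⟨a, rfl⟩
  let ψ : (U ⧸ LinearMap.range (F.restrict hFU)) →ₗ[ℤ] (A ⧸ LinearMap.range F) :=
    Submodule.mapQ _ _ U.subtype hle
  have h1 : Nat.card ψ.toAddMonoidHom.ker * ψ.toAddMonoidHom.ker.index =
      Nat.card (U ⧸ LinearMap.range (F.restrict hFU)) :=
    AddSubgroup.card_mul_index ψ.toAddMonoidHom.ker
  rw [← h1, AddSubgroup.index_ker, mul_comm]
  apply Nat.mul_le_mul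
  · -- the image is in the torsion
    refine Nat.card_le_card_of_injective
      (fun x : ψ.toAddMonoidHom.range =>
        (⟨x.1, ?_⟩ : AddCommGroup.torsion (A ⧸ LinearMap.range F))) ?_
    · obtain ⟨_, y, rfl⟩ := x
      exact ψ.toAddMonoidHom.isOfFinAddOrder (isOfFinAddOrder_of_finite y)
    · intro x y hxy
      apply Subtype.ext
      have h := congrArg (fun z : AddCommGroup.torsion (A ⧸ LinearMap.range F) => z.1) hxy
      exact h
  · have hch : ∀ t : ψ.toAddMonoidHom.ker, ∃ a : A, ∃ h : F a ∈ U,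
        (Submodule.Quotient.mk ⟨F a, h⟩ : U ⧸ LinearMap.range (F.restrict hFU)) = t.1 := by
      rintro ⟨t, ht⟩
      obtain ⟨u, rfl⟩ := Submodule.Quotient.mk_surjective _ t
      have h2 : (Submodule.Quotient.mk (u : A) : A ⧸ LinearMap.range F) = 0 := ht
      rw [Submodule.Quotient.mk_eq_zero] at h2
      obtain ⟨a, ha⟩ := h2
      refine ⟨a, ?_, ?_⟩
      · rw [ha]
        exact u.2
      · congr 1
        exact Subtype.ext ha
    choose a ha hat using hch
    refine Nat.card_le_card_of_injective (fun t => χ (s (a t))) ?_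
    intro t t' htt'
    have hz : ∀ t, F' (s (a t)) = 0 := by
      intro t
      rw [← hc]
      have := ha t
      rw [hU, LinearMap.mem_ker] at this
      exact this
    obtain ⟨v, hv1, hv2⟩ := hχ _ _ htt' (hz t) (hz t')
    apply Subtype.ext
    rw [← hat t, ← hat t', Submodule.Quotient.eq]
    have hmem : a t - a t' - v ∈ U := by
      rw [hU, LinearMap.mem_ker, map_sub, map_sub, hv2, sub_self]
    refine ⟨⟨a t - a t' - v, hmem⟩, ?_⟩
    apply Subtype.ext
    change F (a t - a t' - v) = F (a t) - F (a t')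
    rw [map_sub, map_sub, hv1, sub_zero]

end abstract

end Pool.Agent.D0H8.AC
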