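import Pool.Agent.D0H8.AC.Lump

set_option autoImplicit false

/-! Project AC, module DOM. -/

namespace Pool.Agent.D0H8.AC

open Matrix Finset Pool.Agent.Q181.TG Pool.Agent.Helper993.FK Pool.Agent.D0H83.AC
open Pool.Agent.Q151.TG (pr reg_eq pr_apply reg_mul pm)

variable {G : Type} [Group G] {r s : ℕ}

/-- the bilinear form of a real matrix -/
noncomputable def qf {N : Type} [Fintype N] (f : N → ℝ) (M : Matrix N N ℝ) : ℝ := f ᵥ* M ⬝ᵥ f

theorem qf_add {N : Type} [Fintype N] (f : N → ℝ) (M M' : Matrix N N ℝ) :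
    qf f (M + M') = qf f M + qf f M' := by
  unfold qf
  rw [Matrix.vecMul_add, add_dotProduct]

theorem qf_smul {N : Type} [Fintype N] (f : N → ℝ) (c : ℝ) (M : Matrix N N ℝ) :
    qf f (c • M) = c * qf f M := by
  unfold qf
  rw [Matrix.vecMul_smul, smul_dotProduct, smul_eq_mul]

theorem qf_transpose {N : Type} [Fintype N] (f : N → ℝ) (M : Matrix N N ℝ) :
    qf f Mᵀ = qf f M := by
  unfold qf
  rw [Matrix.vecMul_transpose, dotProduct_comm, Matrix.dotProduct_mulVec]

theorem qf_sq {N P : Type} [Fintype N] [Fintype P] (f : N → ℝ) (M : Matrix N P ℝ) :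
    0 ≤ qf f (M * Mᵀ) := by
  unfold qf
  rw [← Matrix.vecMul_vecMul, Matrix.vecMul_transpose, dotProduct_comm, Matrix.dotProduct_mulVec]
  exact Finset.sum_nonneg fun i _ => mul_self_nonneg _

theorem pr_lap (T : Finset G) (X : Type) [Fintype X] [DecidableEq X] [MulAction G X] (x y : X) :
    pr X (lap T) x y = ∑ t ∈ T, (2 * (if x = y then 1 else 0) - (if t • y = x then 1 else 0) -
      (if t⁻¹ • y = x then 1 else 0)) := by
  unfold lap
  rw [map_sum, Matrix.sum_apply]
  refine Finset.sum_congr rfl fun t _ => ?_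
  have h1 : ∀ g : G, pr X (MonoidAlgebra.single g (1 : ℤ)) = pm X g := by
    intro g
    unfold pr
    rw [MonoidAlgebra.lift_single, one_smul]
  rw [map_sub, map_sub, h1, h1, map_ofNat, Matrix.sub_apply, Matrix.sub_apply]
  have h2 : (2 : Matrix X X ℤ) x y = 2 * (if x = y then 1 else 0) := by
    rw [← one_add_one_eq_two, Matrix.add_apply, Matrix.one_apply]
    ring
  rw [h2]
  rfl

theorem vm_lap (T : Finset G) (X : Type) [Fintype X] [MulAction G X] (f : X × Fin r → ℝ)
    (y : X) (j : Fin r) :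
    (f ᵥ* rg X (Matrix.diagonal (fun _ : Fin r => lap T))) (y, j) =
      ∑ t ∈ T, (2 * f (y, j) - f (t • y, j) - f (t⁻¹ • y, j)) := by
  classical
  change ∑ p : X × Fin r, f p * ((reg X (Matrix.diagonal (fun _ : Fin r => lap T)) p (y, j) : ℤ) : ℝ) = _
  rw [Fintype.sum_prod_type]
  have h1 : ∀ x, ∑ i, f (x, i) * ((reg X (Matrix.diagonal (fun _ : Fin r => lap T)) (x, i) (y, j) : ℤ) : ℝ)
      = f (x, j) * ((pr X (lap T) x y : ℤ) : ℝ) := by
    intro x
    rw [Finset.sum_eq_single j]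
    · rw [reg_eq, Matrix.diagonal_apply_eq]
    · intro i _ hi
      rw [reg_eq, Matrix.diagonal_apply_ne _ hi, map_zero, Matrix.zero_apply, Int.cast_zero, mul_zero]
    · intro h
      exact absurd (Finset.mem_univ _) h
  simp only [h1, pr_lap, Int.cast_sum, Finset.mul_sum]
  rw [Finset.sum_comm]
  refine Finset.sum_congr rfl fun t _ => ?_
  push_cast
  simp only [mul_sub, Finset.sum_sub_distrib, mul_ite, mul_one, mul_zero]
  rw [Finset.sum_ite_eq', Finset.sum_ite_eq, Finset.sum_ite_eq]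
  simp only [Finset.mem_univ, if_true]
  ring

theorem qf_lap (T : Finset G) (X : Type) [Fintype X] [MulAction G X] (f : X × Fin r → ℝ) :
    qf f (rg X (Matrix.diagonal (fun _ : Fin r => lap T))) =
      ∑ i, ∑ t ∈ T, ∑ x, (f (t • x, i) - f (x, i)) ^ 2 := by
  change ∑ p : X × Fin r, _ * f p = _
  rw [Fintype.sum_prod_type, Finset.sum_comm]
  refine Finset.sum_congr rfl fun i _ => ?_
  simp only [vm_lap, Finset.sum_mul]
  rw [Finset.sum_comm]
  refine Finset.sum_congr rfl fun t _ => ?_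
  have h1 : ∑ x, f (t⁻¹ • x, i) * f (x, i) = ∑ x, f (x, i) * f (t • x, i) := by
    rw [← Equiv.sum_comp (MulAction.toPerm t)]
    simp [MulAction.toPerm_apply, inv_smul_smul]
  have h2 : ∑ x, f (x, i) ^ 2 = ∑ x, f (t • x, i) ^ 2 := by
    rw [← Equiv.sum_comp (MulAction.toPerm t)]
    simp [MulAction.toPerm_apply]
  have h3 : ∀ x, (2 * f (x, i) - f (t • x, i) - f (t⁻¹ • x, i)) * f (x, i) =
      2 * f (x, i) ^ 2 - f (x, i) * f (t • x, i) - f (t⁻¹ • x, i) * f (x, i) := by
    intro x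
    ring
  have h4 : ∀ x, (f (t • x, i) - f (x, i)) ^ 2 =
      f (t • x, i) ^ 2 + f (x, i) ^ 2 - 2 * (f (x, i) * f (t • x, i)) := by
    intro x
    ring
  simp only [h3, h4, Finset.sum_sub_distrib, Finset.sum_add_distrib, ← Finset.mul_sum, h1, ← h2]
  ring

theorem rg_add (X : Type) [Fintype X] [MulAction G X]
    (A B : Matrix (Fin r) (Fin s) (MonoidAlgebra ℤ G)) : rg X (A + B) = rg X A + rg X B := by
  classical
  ext p q
  change ((reg X (A + B) p q : ℤ) : ℝ) = ((reg X A p q : ℤ) : ℝ) + ((reg X B p q : ℤ) : ℝ)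
  rw [reg_eq, reg_eq, reg_eq, Matrix.add_apply, map_add, Matrix.add_apply, Int.cast_add]

theorem rg_nsmul (X : Type) [Fintype X] [MulAction G X] (D : ℕ)
    (A : Matrix (Fin r) (Fin s) (MonoidAlgebra ℤ G)) : rg X (D • A) = (D : ℝ) • rg X A := by
  classical
  ext p q
  change ((reg X (D • A) p q : ℤ) : ℝ) = (D : ℝ) * ((reg X A p q : ℤ) : ℝ)
  rw [reg_eq, reg_eq, Matrix.smul_apply, map_nsmul, Matrix.smul_apply, nsmul_eq_mul]
  push_cast
  rfl

theorem rg_adj (X : Type) [Fintype X] [MulAction G X]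
    (A : Matrix (Fin r) (Fin s) (MonoidAlgebra ℤ G)) : rg X (adjZ A) = (rg X A)ᵀ := by
  unfold rg
  rw [reg_adj, Matrix.transpose_map]

theorem rg_mul (X : Type) [Fintype X] [MulAction G X] {t : ℕ}
    (A : Matrix (Fin r) (Fin s) (MonoidAlgebra ℤ G))
    (B : Matrix (Fin s) (Fin t) (MonoidAlgebra ℤ G)) : rg X (A * B) = rg X A * rg X B := by
  classical
  unfold rg
  rw [reg_mul]
  exact Matrix.map_mul (f := Int.castRingHom ℝ)

theorem t_dom : S_dom := by
  intro G _ T r D m A B h X _ _ f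
  have h1 : qf f (rg X (D • (A + adjZ A))) =
      qf f (rg X (Matrix.diagonal (fun _ => lap T) + B * adjZ B)) := by rw [h]
  rw [rg_nsmul, rg_add, rg_add, rg_adj, rg_mul, rg_adj, qf_smul, qf_add, qf_add, qf_transpose,
    qf_lap] at h1
  have h2 := qf_sq f (rg X B)
  have h3 : qf f (rg X A) = f ᵥ* rg X A ⬝ᵥ f := rfl
  rw [← h3]
  nlinarith [h1, h2]

end Pool.Agent.D0H8.AC
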