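import Pool.Agent.D0H83.AC.Stm

set_option autoImplicit false

/-! Project AC, module NUM. -/

namespace Pool.Agent.D0H8.AC

open Finset Pool.Agent.D0H83.AC

theorem t_num : S_num := by
  classical
  intro p c C hc hC δ hδ
  obtain ⟨J, hJ⟩ := pow_unbounded_of_one_lt (2 * p * C * Real.log 2 / δ) (one_lt_two : (1 : ℝ) < 2)
  have h2J : (0 : ℝ) < 2 ^ J := by positivity
  refine ⟨c / (2 ^ J) ^ p, by positivity, ?_⟩
  intro n d ν hν
  have hpos : ∀ k, 0 < ν k := by
    intro k
    by_contra hk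
    push Not at hk
    obtain ⟨L, hL⟩ := exists_nat_gt (C * n)
    have h1 := hν (L + 1) (by omega) {k} (by
      intro k' hk'
      rw [Finset.mem_singleton] at hk'
      rw [hk']
      have : ν k * ((L + 1 : ℕ) : ℝ) ^ p ≤ 0 := mul_nonpos_of_nonpos_of_nonneg hk (by positivity)
      linarith)
    rw [Finset.card_singleton] at h1
    push_cast at h1
    linarith
  refine ⟨hpos, ?_⟩
  intro η hη hη0 S hS
  obtain ⟨M, hM⟩ := pow_unbounded_of_one_lt (C * n) (one_lt_two : (1 : ℝ) < 2)
  have hbig : ∀ k, c ≤ ν k * ((2 : ℝ) ^ (J + M)) ^ p := by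
    intro k
    by_contra hk
    push Not at hk
    have h1 := hν (2 ^ (J + M)) Nat.one_le_two_pow {k} (by
      intro k' hk'
      rw [Finset.mem_singleton] at hk'
      rw [hk']
      push_cast
      exact hk)
    rw [Finset.card_singleton] at h1
    push_cast at h1
    have h2 : (2 : ℝ) ^ M ≤ 2 ^ (J + M) := pow_le_pow_right₀ (by norm_num) (by omega)
    linarith
  let F : Fin d → Finset ℕ := fun k => (Finset.range M).filter fun i => ν k * ((2 : ℝ) ^ (J + i)) ^ p < c
  have hmono : ∀ k i j, i ≤ j → ν k * ((2 : ℝ) ^ (J + i)) ^ p ≤ ν k * ((2 : ℝ) ^ (J + j)) ^ p := by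
    intro k i j hij
    refine mul_le_mul_of_nonneg_left ?_ (hpos k).le
    exact pow_le_pow_left₀ (by positivity) (pow_le_pow_right₀ (by norm_num) (by omega)) _
  have hcount : ∀ k, c ≤ ν k * ((2 : ℝ) ^ (J + #(F k))) ^ p := by
    intro k
    by_contra hk
    push Not at hk
    have h1 : #(F k) < M := by
      by_contra h
      push Not at h
      have h2 := hmono k M (#(F k)) h
      have h3 := hbig k
      linarith
    have h2 : Finset.range (#(F k) + 1) ⊆ F k := by
      intro i hi
      rw [Finset.mem_range] at hi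
      refine Finset.mem_filter.mpr ⟨Finset.mem_range.mpr (by omega), ?_⟩
      exact lt_of_le_of_lt (hmono k i (#(F k)) (by omega)) hk
    have h3 := Finset.card_le_card h2
    rw [Finset.card_range] at h3
    omega
  have hlog : ∀ k ∈ S, Real.log (η / ν k) ≤ #(F k) * (p * Real.log 2) := by
    intro k _
    have h1 : η / ν k ≤ ((2 : ℝ) ^ #(F k)) ^ p := by
      rw [div_le_iff₀ (hpos k)]
      refine hη0.trans ?_
      rw [div_le_iff₀ (by positivity)]
      have h2 := hcount k
      rw [pow_add, mul_pow] at h2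
      linarith
    calc Real.log (η / ν k) ≤ Real.log (((2 : ℝ) ^ #(F k)) ^ p) :=
          Real.log_le_log (div_pos hη (hpos k)) h1
      _ = #(F k) * (p * Real.log 2) := by
          rw [Real.log_pow, Real.log_pow]
          ring
  have hsum : (∑ k ∈ S, (#(F k) : ℝ)) ≤ 2 * (C * n) / 2 ^ J := by
    have h1 : (∑ k ∈ S, (#(F k) : ℝ)) =
        ∑ i ∈ Finset.range M, (#(S.filter fun k => ν k * ((2 : ℝ) ^ (J + i)) ^ p < c) : ℝ) := by
      have h2 : ∑ k ∈ S, #(F k) =
          ∑ i ∈ Finset.range M, #(S.filter fun k => ν k * ((2 : ℝ) ^ (J + i)) ^ p < c) := by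
        simp only [F, Finset.card_filter]
        exact Finset.sum_comm
      exact_mod_cast h2
    rw [h1]
    have h3 : ∀ i ∈ Finset.range M,
        (#(S.filter fun k => ν k * ((2 : ℝ) ^ (J + i)) ^ p < c) : ℝ) ≤ C * n / 2 ^ J * (1 / 2) ^ i := by
      intro i _
      have h4 := hν (2 ^ (J + i)) Nat.one_le_two_pow
        (S.filter fun k => ν k * ((2 : ℝ) ^ (J + i)) ^ p < c) (by
          intro k hk
          push_cast
          exact (Finset.mem_filter.mp hk).2)
      push_cast at h4
      rw [one_div, inv_pow, ← div_eq_mul_inv, div_div, ← pow_add, le_div_iff₀ (by positivity)]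
      exact h4
    refine (Finset.sum_le_sum h3).trans ?_
    rw [← Finset.mul_sum]
    have h5 : ∑ i ∈ Finset.range M, ((1 : ℝ) / 2) ^ i ≤ 2 := by
      have h6 := geom_sum_eq (by norm_num : (1 / 2 : ℝ) ≠ 1) M
      rw [h6]
      have h7 : (0 : ℝ) ≤ (1 / 2) ^ M := by positivity
      rw [div_le_iff_of_neg (by norm_num)]
      linarith
    have h8 : 0 ≤ C * n / 2 ^ J := by positivity
    calc C * n / 2 ^ J * ∑ i ∈ Finset.range M, ((1 : ℝ) / 2) ^ i ≤ C * n / 2 ^ J * 2 :=
          mul_le_mul_of_nonneg_left h5 h8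
      _ = 2 * (C * n) / 2 ^ J := by ring
  calc ∑ k ∈ S, Real.log (η / ν k) ≤ ∑ k ∈ S, #(F k) * (p * Real.log 2) :=
        Finset.sum_le_sum hlog
    _ = (∑ k ∈ S, (#(F k) : ℝ)) * (p * Real.log 2) := by rw [Finset.sum_mul]
    _ ≤ 2 * (C * n) / 2 ^ J * (p * Real.log 2) :=
        mul_le_mul_of_nonneg_right hsum (mul_nonneg (Nat.cast_nonneg _) (Real.log_nonneg (by norm_num)))
    _ = (2 * p * C * Real.log 2 / 2 ^ J) * n := by ring
    _ ≤ δ * n := by
        refine mul_le_mul_of_nonneg_right ?_ (Nat.cast_nonneg _)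
        rw [div_le_iff₀ h2J]
        rw [div_lt_iff₀ hδ] at hJ
        linarith

end Pool.Agent.D0H8.AC
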