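import Pool.Agent.D0H8.AC.TorA

set_option autoImplicit false

/-! Project AC, module TOR: torsion of the cokernel and determinant. -/

namespace Pool.Agent.D0H8.AC

open Matrix Finset Pool.Agent.Q181.TG Pool.Agent.Helper993.Tors Pool.Agent.D0H83.AC

section conc

variable {X Y : Type} [Fintype X] [Fintype Y] {r : ℕ} (o : X → Y) (ρ : Y → X)
  (M : Matrix (X × Fin r) (X × Fin r) ℤ)

/-- the index set of the coordinates on `Zs` -/
abbrev Ix (o : X → Y) (ρ : Y → X) (r : ℕ) : Type := {x : X // x ≠ ρ (o x)} × Fin r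

noncomputable instance instFx (o : X → Y) (ρ : Y → X) : Fintype {x : X // x ≠ ρ (o x)} :=
  Fintype.ofFinite _

open Classical in
/-- sums over the fibres -/
noncomputable def sm (o : X → Y) (r : ℕ) (R : Type) [CommRing R] :
    (X × Fin r → R) →ₗ[R] (Y × Fin r → R) where
  toFun f := fun p => ∑ x with o x = p.1, f (x, p.2)
  map_add' f g := by
    funext p
    simp only [Pi.add_apply, Finset.sum_add_distrib]
  map_smul' c f := by
    funext p
    simp only [Pi.smul_apply, smul_eq_mul, RingHom.id_apply, Finset.mul_sum]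

open Classical in
theorem sm_apply (o : X → Y) (r : ℕ) (R : Type) [CommRing R] (f : X × Fin r → R) (b : Y) (i : Fin r) :
    sm o r R f (b, i) = ∑ x with o x = b, f (x, i) := rfl

theorem Zs_eq_ker (o : X → Y) (r : ℕ) (R : Type) [CommRing R] :
    Zs o r R = LinearMap.ker (sm o r R) := by
  ext f
  rw [LinearMap.mem_ker]
  constructor
  · intro h
    funext p
    exact h p.1 p.2
  · intro h b i
    exact congrFun h (b, i)

variable {ρ}

/-- the coordinates -/
noncomputable def res (o : X → Y) (ρ : Y → X) (r : ℕ) (R : Type) [CommRing R] :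
    Zs o r R →ₗ[R] (Ix o ρ r → R) :=
  (LinearMap.funLeft R R (fun p : Ix o ρ r => (p.1.1, p.2))).comp (Zs o r R).subtype

theorem res_apply (R : Type) [CommRing R] (f : Zs o r R) (p : Ix o ρ r) :
    res o ρ r R f p = f.1 (p.1.1, p.2) := rfl

theorem res_inj (hρ : ∀ b, o (ρ b) = b) (R : Type) [CommRing R] :
    Function.Injective (res o ρ r R) := by
  classical
  rw [← LinearMap.ker_eq_bot, LinearMap.ker_eq_bot']
  intro f hf
  have h1 : ∀ x i, x ≠ ρ (o x) → f.1 (x, i) = 0 := fun x i hx => congrFun hf (⟨x, hx⟩, i)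
  apply Subtype.ext
  funext ⟨x, i⟩
  by_cases hx : x = ρ (o x)
  · have h2 := f.2 (o x) i
    rw [Finset.sum_eq_single x] at h2
    · exact h2
    · intro y hy hyx
      apply h1
      intro h
      apply hyx
      have h7 : o y = o x := (Finset.mem_filter.mp hy).2
      rw [h, h7]
      exact hx.symm
    · intro h
      exact absurd (Finset.mem_filter.mpr ⟨Finset.mem_univ x, (rfl : o x = o x)⟩) h
  · exact h1 x i hx

theorem res_surj (hρ : ∀ b, o (ρ b) = b) (R : Type) [CommRing R] :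
    Function.Surjective (res o ρ r R) := by
  classical
  intro g
  let G : X × Fin r → R := fun p => if h : p.1 ≠ ρ (o p.1) then g (⟨p.1, h⟩, p.2) else 0
  let f : X × Fin r → R := fun p => G p -
    if p.1 = ρ (o p.1) then ∑ x' with o x' = o p.1, G (x', p.2) else 0
  have hf : f ∈ Zs o r R := by
    intro b i
    have h1 : ∀ x ∈ (Finset.univ.filter fun x => o x = b), f (x, i) =
        G (x, i) - if x = ρ b then ∑ x' with o x' = b, G (x', i) else 0 := by
      intro x hx
      have hx' := (Finset.mem_filter.mp hx).2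
      change G (x, i) - (if x = ρ (o x) then ∑ x' with o x' = o x, G (x', i) else 0) = _
      rw [hx']
    rw [Finset.sum_congr rfl h1, Finset.sum_sub_distrib, Finset.sum_ite_eq', if_pos, sub_self]
    exact Finset.mem_filter.mpr ⟨Finset.mem_univ _, hρ b⟩
  refine ⟨⟨f, hf⟩, ?_⟩
  funext ⟨⟨x, hx⟩, i⟩
  rw [res_apply]
  change G (x, i) - (if x = ρ (o x) then _ else 0) = _
  rw [if_neg hx, sub_zero]
  exact dif_pos hx

/-- the coordinate isomorphism -/
noncomputable def eZ (hρ : ∀ b, o (ρ b) = b) (R : Type) [CommRing R] :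
    Zs o r R ≃ₗ[R] (Ix o ρ r → R) :=
  LinearEquiv.ofBijective (res o ρ r R) ⟨res_inj o hρ R, res_surj o hρ R⟩

/-- the matrix in coordinates -/
def M' (o : X → Y) (ρ : Y → X) (M : Matrix (X × Fin r) (X × Fin r) ℤ) :
    Matrix (Ix o ρ r) (Ix o ρ r) ℤ := fun p q =>
  M (p.1.1, p.2) (q.1.1, q.2) - M (ρ (o p.1.1), p.2) (q.1.1, q.2)

open Classical in
theorem sum_root (R : Type) [CommRing R] (f : X × Fin r → R) (hf : f ∈ Zs o r R)
    (c : Y → Fin r → R) : ∑ p : X × Fin r, f p * c (o p.1) p.2 = 0 := by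
  rw [Fintype.sum_prod_type, Finset.sum_comm]
  apply Finset.sum_eq_zero
  intro i _
  rw [← Finset.sum_fiberwise Finset.univ o]
  apply Finset.sum_eq_zero
  intro b _
  have h1 : ∑ x with o x = b, f (x, i) * c (o x) i = (∑ x with o x = b, f (x, i)) * c b i := by
    rw [Finset.sum_mul]
    refine Finset.sum_congr rfl fun x hx => ?_
    rw [(Finset.mem_filter.mp hx).2]
  rw [h1, hf b i, zero_mul]

theorem vecMul_eq (R : Type) [CommRing R] (f : X × Fin r → R) (hf : f ∈ Zs o r R)
    (q : Ix o ρ r) :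
    (f ᵥ* M.map (Int.cast : ℤ → R)) (q.1.1, q.2) =
      ((fun p : Ix o ρ r => f (p.1.1, p.2)) ᵥ* (M' o ρ M).map (Int.cast : ℤ → R)) q := by
  classical
  have h1 : (f ᵥ* M.map (Int.cast : ℤ → R)) (q.1.1, q.2) =
      ∑ p : X × Fin r, f p * ((M p (q.1.1, q.2) : ℤ) - (M (ρ (o p.1), p.2) (q.1.1, q.2) : ℤ) : R) := by
    have h2 := sum_root o R f hf (fun b i => ((M (ρ b, i) (q.1.1, q.2) : ℤ) : R))
    simp only [mul_sub, Finset.sum_sub_distrib]
    rw [h2, sub_zero]
    rfl
  rw [h1, Fintype.sum_prod_type]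
  change _ = ∑ p : Ix o ρ r, f (p.1.1, p.2) * (((M' o ρ M) p q : ℤ) : R)
  rw [Fintype.sum_prod_type]
  have h3 : ∀ x : X, x = ρ (o x) → ∑ i, f (x, i) *
      ((M (x, i) (q.1.1, q.2) : ℤ) - (M (ρ (o x), i) (q.1.1, q.2) : ℤ) : R) = 0 := by
    intro x hx
    apply Finset.sum_eq_zero
    intro i _
    rw [← hx, sub_self, mul_zero]
  rw [← Finset.sum_subset (Finset.subset_univ (Finset.univ.filter fun x : X => x ≠ ρ (o x)))]
  · rw [Finset.sum_subtype (Finset.univ.filter fun x : X => x ≠ ρ (o x))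
      (p := fun x => x ≠ ρ (o x)) (fun x => by simp)]
    refine Finset.sum_congr rfl fun x _ => Finset.sum_congr rfl fun i _ => ?_
    unfold M'
    push_cast
    rfl
  · intro x _ hx
    apply h3
    by_contra h
    exact hx (Finset.mem_filter.mpr ⟨Finset.mem_univ _, h⟩)

/-- the determinant -/
theorem det_eq (hρ : ∀ b, o (ρ b) = b)
    (h1 : ∀ f ∈ Zs o r ℝ, (M.map (Int.cast : ℤ → ℝ)).vecMulLinear f ∈ Zs o r ℝ)
    [DecidableEq (Ix o ρ r)] :
    LinearMap.det ((M.map (Int.cast : ℤ → ℝ)).vecMulLinear.restrict h1) =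
      (((M' o ρ M).det : ℤ) : ℝ) := by
  rw [← LinearMap.det_conj _ (eZ o hρ ℝ)]
  have h2 : (eZ o hρ ℝ).toLinearMap ∘ₗ ((M.map (Int.cast : ℤ → ℝ)).vecMulLinear.restrict h1 ∘ₗ
      (eZ o hρ ℝ).symm.toLinearMap) = Matrix.toLin' ((M' o ρ M).map (Int.cast : ℤ → ℝ))ᵀ := by
    apply LinearMap.ext
    intro g
    obtain ⟨f, rfl⟩ := (eZ o hρ ℝ).surjective g
    funext q
    rw [Matrix.toLin'_apply, Matrix.mulVec_transpose]
    simp only [LinearMap.coe_comp, LinearEquiv.coe_coe, Function.comp_apply,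
      LinearEquiv.symm_apply_apply]
    exact vecMul_eq o M ℝ f.1 f.2 q
  rw [h2, LinearMap.det_toLin', Matrix.det_transpose]
  exact (RingHom.map_det (Int.castRingHom ℝ) _).symm

/-- the index -/
theorem index_eq (hρ : ∀ b, o (ρ b) = b)
    (h1 : ∀ f ∈ Zs o r ℤ, M.vecMulLinear f ∈ Zs o r ℤ)
    [DecidableEq (Ix o ρ r)] (hdet : (M' o ρ M).det ≠ 0) :
    Nat.card (Zs o r ℤ ⧸ LinearMap.range (M.vecMulLinear.restrict h1)) =
      (M' o ρ M).det.natAbs := by
  rw [← Pool.Agent.Y692.FKT.index_vecMul _ hdet]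
  refine Nat.card_congr (Submodule.Quotient.equiv _ _ (eZ o hρ ℤ) ?_).toEquiv
  have h2 : (eZ o hρ ℤ).toLinearMap ∘ₗ M.vecMulLinear.restrict h1 =
      (M' o ρ M).vecMulLinear ∘ₗ (eZ o hρ ℤ).toLinearMap := by
    apply LinearMap.ext
    intro f
    funext q
    have h3 := vecMul_eq o M ℤ f.1 f.2 q
    have h4 : ∀ {α β : Type} (M : Matrix α β ℤ), M.map (Int.cast : ℤ → ℤ) = M := by
      intro α β M
      ext i j
      rfl
    rw [h4, h4] at h3
    exact h3
  rw [← LinearMap.range_comp, h2, LinearMap.range_comp, LinearEquiv.range, Submodule.map_top]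

open Classical in
/-- the quotient matrix -/
noncomputable def MY (o : X → Y) (ρ : Y → X) (M : Matrix (X × Fin r) (X × Fin r) ℤ) :
    Matrix (Y × Fin r) (Y × Fin r) ℤ := fun p q =>
  ∑ y with o y = q.1, M (ρ p.1, p.2) (y, q.2)

theorem sm_vecMul (hρ : ∀ b, o (ρ b) = b) (hL : Lump o M) (v : X × Fin r → ℤ) :
    sm o r ℤ (v ᵥ* M) = sm o r ℤ v ᵥ* MY o ρ M := by
  classical
  funext ⟨b, j⟩
  rw [sm_apply]
  have h1 : ∀ x i, ∑ y with o y = b, M (x, i) (y, j) = MY o ρ M (o x, i) (b, j) := by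
    intro x i
    exact hL.1 x (ρ (o x)) i b j (hρ _).symm
  calc ∑ y with o y = b, (v ᵥ* M) (y, j)
      = ∑ y with o y = b, ∑ p : X × Fin r, v p * M p (y, j) := rfl
    _ = ∑ p : X × Fin r, v p * ∑ y with o y = b, M p (y, j) := by
        rw [Finset.sum_comm]
        refine Finset.sum_congr rfl fun p _ => ?_
        rw [Finset.mul_sum]
    _ = ∑ x, ∑ i, v (x, i) * MY o ρ M (o x, i) (b, j) := by
        rw [Fintype.sum_prod_type]
        refine Finset.sum_congr rfl fun x _ => Finset.sum_congr rfl fun i _ => ?_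
        rw [h1]
    _ = ∑ b', ∑ x with o x = b', ∑ i, v (x, i) * MY o ρ M (o x, i) (b, j) :=
        (Finset.sum_fiberwise Finset.univ o _).symm
    _ = ∑ b', ∑ i, (sm o r ℤ v (b', i)) * MY o ρ M (b', i) (b, j) := by
        refine Finset.sum_congr rfl fun b' _ => ?_
        rw [Finset.sum_comm]
        refine Finset.sum_congr rfl fun i _ => ?_
        rw [sm_apply, Finset.sum_mul]
        refine Finset.sum_congr rfl fun x hx => ?_
        rw [(Finset.mem_filter.mp hx).2]
    _ = (sm o r ℤ v ᵥ* MY o ρ M) (b, j) := by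
        change _ = ∑ p : Y × Fin r, _
        rw [Fintype.sum_prod_type]

theorem sm_surj (hρ : ∀ b, o (ρ b) = b) : Function.Surjective (sm o r ℤ) := by
  classical
  intro k
  refine ⟨fun p => if p.1 = ρ (o p.1) then k (o p.1, p.2) else 0, ?_⟩
  funext ⟨b, i⟩
  rw [sm_apply, Finset.sum_eq_single (ρ b)]
  · simp only [hρ, if_true]
  · intro x hx hxb
    have h := (Finset.mem_filter.mp hx).2
    simp only
    rw [h, if_neg hxb]
  · intro h
    exact absurd (Finset.mem_filter.mpr ⟨Finset.mem_univ (ρ b), hρ b⟩) h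

/-- the rows of the quotient matrix are bounded -/
theorem MY_row (K : ℕ) (hK : ∀ p, ∑ q, (M p q).natAbs ≤ K) (p : Y × Fin r) :
    ∑ q, (MY o ρ M p q).natAbs ≤ K := by
  classical
  refine le_trans ?_ (hK (ρ p.1, p.2))
  rw [Fintype.sum_prod_type, Fintype.sum_prod_type, Finset.sum_comm]
  rw [Finset.sum_comm (s := (Finset.univ : Finset X))]
  refine Finset.sum_le_sum fun j _ => ?_
  rw [← Finset.sum_fiberwise Finset.univ o]
  refine Finset.sum_le_sum fun b _ => ?_
  exact Int.natAbs_sum_le _ _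

open Classical in
/-- functions on the quotient with divisible values in the kernel come from the kernel -/
theorem lift_ker (hρ : ∀ b, o (ρ b) = b) (hL : Lump o M) (k : Y × Fin r → ℤ)
    (hk : k ᵥ* MY o ρ M = 0)
    (hd : ∀ b i, ((#{x | o x = b} : ℕ) : ℤ) ∣ k (b, i)) :
    ∃ v : X × Fin r → ℤ, v ᵥ* M = 0 ∧ sm o r ℤ v = k := by
  choose c hc using hd
  let v : X × Fin r → ℤ := fun p => c (o p.1) p.2
  have hv : sm o r ℤ v = k := by
    funext ⟨b, i⟩
    rw [sm_apply, hc b i]
    have h1 : ∀ x ∈ (Finset.univ.filter fun x => o x = b), v (x, i) = c b i := by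
      intro x hx
      change c (o x) i = _
      rw [(Finset.mem_filter.mp hx).2]
    rw [Finset.sum_congr rfl h1, Finset.sum_const, nsmul_eq_mul]
  refine ⟨v, ?_, hv⟩
  -- constant on the fibres
  have hconst : ∀ y y' j, o y = o y' → (v ᵥ* M) (y, j) = (v ᵥ* M) (y', j) := by
    intro y y' j hyy'
    have h1 : ∀ z, (v ᵥ* M) (z, j) = ∑ i, ∑ b, c b i * ∑ x with o x = b, M (x, i) (z, j) := by
      intro z
      change ∑ p : X × Fin r, v p * M p (z, j) = _
      rw [Fintype.sum_prod_type, Finset.sum_comm]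
      refine Finset.sum_congr rfl fun i _ => ?_
      rw [← Finset.sum_fiberwise Finset.univ o]
      refine Finset.sum_congr rfl fun b _ => ?_
      rw [Finset.mul_sum]
      refine Finset.sum_congr rfl fun x hx => ?_
      change c (o x) i * _ = _
      rw [(Finset.mem_filter.mp hx).2]
    rw [h1, h1]
    refine Finset.sum_congr rfl fun i _ => Finset.sum_congr rfl fun b _ => ?_
    rw [hL.2 y y' j b i hyy']
  have hsm : sm o r ℤ (v ᵥ* M) = 0 := by
    rw [sm_vecMul o M hρ hL, hv, hk]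
  funext ⟨y, j⟩
  have h2 := congrFun hsm (o y, j)
  rw [sm_apply] at h2
  have h3 : ∀ x ∈ (Finset.univ.filter fun x => o x = o y), (v ᵥ* M) (x, j) = (v ᵥ* M) (y, j) :=
    fun x hx => hconst _ _ _ (Finset.mem_filter.mp hx).2
  rw [Finset.sum_congr rfl h3, Finset.sum_const, nsmul_eq_mul] at h2
  rcases mul_eq_zero.mp h2 with h4 | h4
  · exfalso
    have h5 : #(Finset.univ.filter fun x => o x = o y) = 0 := by exact_mod_cast h4
    rw [Finset.card_eq_zero] at h5
    have h6 : y ∈ (Finset.univ.filter fun x => o x = o y) :=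
      Finset.mem_filter.mpr ⟨Finset.mem_univ _, rfl⟩
    rw [h5] at h6
    exact absurd h6 (Finset.notMem_empty _)
  · exact h4

end conc

theorem tc_cok {α : Type} [Fintype α] (M : Matrix α α ℤ) :
    tc (Cok M) = tc ((α → ℤ) ⧸ LinearMap.range M.vecMulLinear) := by
  unfold Cok
  rw [cok_range]

theorem t_tor : S_tor := by
  classical
  intro X Y _ _ r o M K hK1 ho hL hK h1 hdet
  obtain ⟨ρ, hρ⟩ := ho.hasRightInverse
  have hρ' : ∀ b, o (ρ b) = b := hρ
  rw [det_eq o M hρ' h1] at hdet ⊢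
  have hdet' : (M' o ρ M).det ≠ 0 := by exact_mod_cast hdet
  have hU : Zs o r ℤ = LinearMap.ker (sm o r ℤ) := Zs_eq_ker o r ℤ
  have hc : ∀ a, sm o r ℤ (M.vecMulLinear a) = (MY o ρ M).vecMulLinear (sm o r ℤ a) :=
    fun a => sm_vecMul o M hρ' hL a
  have hFU : ∀ u ∈ Zs o r ℤ, M.vecMulLinear u ∈ Zs o r ℤ := by
    intro u hu
    rw [hU, LinearMap.mem_ker] at hu ⊢
    rw [hc, hu, map_zero]
  have hind := index_eq o M hρ' hFU hdet'
  have hfin : Finite (Zs o r ℤ ⧸ LinearMap.range (M.vecMulLinear.restrict hFU)) := by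
    apply Nat.finite_of_card_ne_zero
    rw [hind]
    exact (Int.natAbs_pos.mpr hdet').ne'
  have habs : |(((M' o ρ M).det : ℤ) : ℝ)| = (((M' o ρ M).det.natAbs : ℕ) : ℝ) := by
    rw [← Int.cast_abs, Int.abs_eq_natAbs]
    rfl
  rw [habs, tc_cok]
  constructor
  · have h2 := upper M.vecMulLinear (MY o ρ M).vecMulLinear (sm o r ℤ) (sm_surj o hρ') hc
      (Zs o r ℤ) hU hFU hfin
    rw [hind] at h2
    have h3 : tc ((Y × Fin r → ℤ) ⧸ LinearMap.range (MY o ρ M).vecMulLinear) ≤
        K ^ (r * Fintype.card Y) := by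
      rw [tc_eq_tO]
      refine (Pool.Agent.Y692.FKT.tO_le (MY o ρ M) K hK1 (MY_row o M K hK) ⊤).trans ?_
      rw [Fintype.card_prod, Fintype.card_fin, mul_comm]
    have h4 := h2.trans (Nat.mul_le_mul_left _ h3)
    exact_mod_cast h4
  · have hQfin : ∀ b, NeZero (#{x | o x = b}) := by
      intro b
      refine ⟨fun h => ?_⟩
      rw [Finset.card_eq_zero] at h
      have h6 : ρ b ∈ (Finset.univ.filter fun x => o x = b) :=
        Finset.mem_filter.mpr ⟨Finset.mem_univ _, hρ b⟩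
      rw [h] at h6
      exact absurd h6 (Finset.notMem_empty _)
    let Q : Type := ∀ p : Y × Fin r, ZMod (#{x | o x = p.1})
    have hQ : Nat.card Q = ∏ b : Y, (#{x | o x = b}) ^ r := by
      rw [Nat.card_pi, Fintype.prod_prod_type]
      refine Finset.prod_congr rfl fun b _ => ?_
      simp only [Nat.card_zmod, Finset.prod_const, Finset.card_univ, Fintype.card_fin]
    have hQf : Finite Q := Pi.finite
    let χ : (Y × Fin r → ℤ) → Q := fun k p => (k p : ZMod (#{x | o x = p.1}))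
    have h2 := lower M.vecMulLinear (MY o ρ M).vecMulLinear (sm o r ℤ) hc (Zs o r ℤ) hU hFU hfin χ
      (by
        intro b b' hbb' hb hb'
        obtain ⟨v, hv1, hv2⟩ := lift_ker o M hρ' hL (b - b') (by
          have h5 : (MY o ρ M).vecMulLinear (b - b') = 0 := by rw [map_sub, hb, hb', sub_zero]
          exact h5) (by
          intro y i
          have h5 := congrFun hbb' (y, i)
          have h6 : ((b (y, i) : ℤ) : ZMod (#{x | o x = y})) = ((b' (y, i) : ℤ) : ZMod _) := h5
          rw [Pi.sub_apply, ← ZMod.intCast_zmod_eq_zero_iff_dvd, Int.cast_sub, h6, sub_self])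
        exact ⟨v, hv1, hv2⟩)
    rw [hind, hQ] at h2
    exact_mod_cast h2

end Pool.Agent.D0H8.AC
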